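import Mathlib

/-!
# Independence number, even-distance counts and local independence

For every connected finite simple graph on at least two vertices,
`α(G) ≤ 1 + δ_even(G) * (Λ(G) - 1)`.
-/

namespace Pool.Agent.Results.MP_c843e9_co.EvenDistBound

open Finset

/-- `D_even(v)`: the number of vertices at even distance from `v` (`v` itself is counted). -/
noncomputable def evenCount {V : Type*} (G : SimpleGraph V) (v : V) : ℕ :=
  Nat.card {u : V // Even (G.dist v u)}

/-- `λ(v)`: the independence number of the subgraph induced on the open neighbourhood of `v`. -/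
noncomputable def localIndep {V : Type*} (G : SimpleGraph V) (v : V) : ℕ :=
  (G.induce (G.neighborSet v)).indepNum

/-- `δ_even(G)`: the minimum of `D_even(v)` over all vertices. -/
noncomputable def minEvenCount {V : Type*} (G : SimpleGraph V) : ℕ := ⨅ v, evenCount G v

/-- `Λ(G)`: the maximum of `λ(v)` over all vertices. -/
noncomputable def maxLocalIndep {V : Type*} (G : SimpleGraph V) : ℕ := ⨆ v, localIndep G v

variable {V : Type*}

lemma exists_parent {G : SimpleGraph V} (hG : G.Connected) {v u : V} {k : ℕ}
    (h : G.dist v u = k + 1) : ∃ w, G.Adj w u ∧ G.dist v w = k := by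
  obtain ⟨p, hp⟩ := hG.exists_walk_length_eq_dist u v
  cases p with
  | nil => simp at h
  | @cons _ w _ hadj q =>
    refine ⟨w, hadj.symm, ?_⟩
    have h1 : G.dist w v ≤ q.length := SimpleGraph.dist_le q
    have h2 : q.length + 1 = k + 1 := by
      rw [← h, SimpleGraph.dist_comm, ← hp]; simp
    have h3 : G.dist v u ≤ G.dist v w + G.dist w u := hG.dist_triangle
    have h4 : G.dist w u = 1 := SimpleGraph.dist_eq_one_iff_adj.2 hadj.symm
    rw [SimpleGraph.dist_comm] at h1
    omega

/-- an independent set contained in a neighbourhood has at most `λ` elements -/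
lemma card_le_localIndep [Fintype V] (G : SimpleGraph V) (w : V) (T : Finset V)
    (hT : G.IsIndepSet (T : Set V)) (hN : ∀ x ∈ T, G.Adj w x) : T.card ≤ localIndep G w := by
  classical
  have hsub : ∀ x ∈ T, x ∈ G.neighborSet w := hN
  let T' : Finset (G.neighborSet w) := T.subtype (fun x => x ∈ G.neighborSet w)
  have hcard : T'.card = T.card := by
    rw [Finset.card_subtype, Finset.filter_true_of_mem hsub]
  rw [← hcard]
  apply SimpleGraph.IsIndepSet.card_le_indepNum
  intro a ha b hb hab
  have ha' : (a : V) ∈ T := by simpa [T'] using ha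
  have hb' : (b : V) ∈ T := by simpa [T'] using hb
  simpa using hT ha' hb' (fun h => hab (Subtype.ext h))

lemma localIndep_le_max [Finite V] (G : SimpleGraph V) (w : V) :
    localIndep G w ≤ maxLocalIndep G :=
  le_ciSup (Set.finite_range _).bddAbove w

/-- Main estimate: the bound holds at every vertex `v`. -/
lemma bound_at [Fintype V] (G : SimpleGraph V) (hG : G.Connected)
    (hΛ : 2 ≤ maxLocalIndep G) (v : V) (I : Finset V) (hI : G.IsIndepSet (I : Set V)) :
    I.card ≤ 1 + evenCount G v * (maxLocalIndep G - 1) := by
  classical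
  set L := maxLocalIndep G with hL
  let E : Finset V := univ.filter fun u => Even (G.dist v u)
  have hE : evenCount G v = E.card := by
    unfold evenCount
    rw [Nat.card_eq_fintype_card, Fintype.card_subtype]
  -- the children of `w` which lie in `I`
  let ch : V → Finset V := fun w => I.filter fun u => G.Adj w u ∧ G.dist v u = G.dist v w + 1
  have hch_indep : ∀ w, G.IsIndepSet (ch w : Set V) := by
    intro w a ha b hb hab
    have ha' : a ∈ I := (Finset.mem_filter.1 (Finset.mem_coe.1 ha)).1
    have hb' : b ∈ I := (Finset.mem_filter.1 (Finset.mem_coe.1 hb)).1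
    exact hI ha' hb' hab
  have hchv : (ch v).card ≤ L :=
    (card_le_localIndep G v (ch v) (hch_indep v)
      (fun x hx => (Finset.mem_filter.1 hx).2.1)).trans (localIndep_le_max G v)
  have hchw : ∀ w, w ≠ v → (ch w).card ≤ L - 1 := by
    intro w hw
    have hpos : 0 < G.dist v w := hG.pos_dist_of_ne hw.symm
    obtain ⟨k, hk⟩ : ∃ k, G.dist v w = k + 1 := ⟨G.dist v w - 1, by omega⟩
    obtain ⟨p, hp, hpk⟩ := exists_parent hG hk
    have hpnot : p ∉ ch w := by
      intro hmem
      have := (Finset.mem_filter.1 hmem).2.2
      omega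
    have hind : G.IsIndepSet ((insert p (ch w) : Finset V) : Set V) := by
      rw [Finset.coe_insert]
      intro a ha b hb hab
      have key : ∀ x ∈ (ch w : Set V), ¬ G.Adj p x := by
        intro x hx hadj
        have h1 := (Finset.mem_filter.1 (Finset.mem_coe.1 hx)).2.2
        have h2 := hG.dist_triangle (u := v) (v := p) (w := x)
        have h3 : G.dist p x = 1 := SimpleGraph.dist_eq_one_iff_adj.2 hadj
        omega
      rcases ha with rfl | ha
      · rcases hb with rfl | hb
        · exact absurd rfl hab
        · exact key b hb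
      · rcases hb with rfl | hb
        · intro h; exact key a ha h.symm
        · exact hch_indep w ha hb hab
    have := (card_le_localIndep G w _ hind (by
      intro x hx
      rcases Finset.mem_insert.1 hx with rfl | hx
      · exact hp.symm
      · exact (Finset.mem_filter.1 hx).2.1)).trans (localIndep_le_max G w)
    rw [Finset.card_insert_of_notMem hpnot] at this
    omega
  -- odd part of `I` is covered by children of vertices in `E \ I`
  have hcover : I.filter (fun u => ¬ Even (G.dist v u)) ⊆ (E \ I).biUnion ch := by
    intro u hu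
    obtain ⟨huI, huodd⟩ := Finset.mem_filter.1 hu
    obtain ⟨k, hk⟩ : ∃ k, G.dist v u = k + 1 := by
      refine ⟨G.dist v u - 1, ?_⟩
      rcases Nat.eq_zero_or_pos (G.dist v u) with h0 | h0
      · rw [h0] at huodd; simp at huodd
      · omega
    obtain ⟨w, hw, hwk⟩ := exists_parent hG hk
    rw [Finset.mem_biUnion]
    refine ⟨w, ?_, ?_⟩
    · rw [Finset.mem_sdiff]
      refine ⟨?_, ?_⟩
      · simp only [E, Finset.mem_filter, Finset.mem_univ, true_and]
        rw [hwk]
        rw [hk] at huodd
        by_contra hcon
        exact huodd (by rw [Nat.even_add_one]; exact hcon)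
      · intro hwI
        exact hI hwI huI hw.ne hw
    · simp only [ch, Finset.mem_filter]
      exact ⟨huI, hw, by rw [hwk, hk]⟩
  have hodd : (I.filter (fun u => ¬ Even (G.dist v u))).card ≤ (E \ I).card * (L - 1) + 1 := by
    calc (I.filter (fun u => ¬ Even (G.dist v u))).card
        ≤ ((E \ I).biUnion ch).card := Finset.card_le_card hcover
      _ ≤ ∑ w ∈ E \ I, (ch w).card := Finset.card_biUnion_le
      _ ≤ ∑ w ∈ E \ I, ((L - 1) + if w = v then 1 else 0) := by
          apply Finset.sum_le_sum
          intro w _
          by_cases hwv : w = v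
          · subst hwv; simp only [if_true]; omega
          · simp only [if_neg hwv, add_zero]; exact hchw w hwv
      _ ≤ (E \ I).card * (L - 1) + 1 := by
          rw [Finset.sum_add_distrib, Finset.sum_const, smul_eq_mul]
          gcongr
          rw [Finset.sum_ite_eq']
          split_ifs <;> omega
  have heven : (I.filter (fun u => Even (G.dist v u))).card = (E ∩ I).card := by
    congr 1
    ext u
    simp only [E, Finset.mem_filter, Finset.mem_univ, true_and, Finset.mem_inter]
    tauto
  have hsplit : I.card = (I.filter (fun u => Even (G.dist v u))).card +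
      (I.filter (fun u => ¬ Even (G.dist v u))).card :=
    (Finset.card_filter_add_card_filter_not _).symm
  have hEsplit : E.card = (E ∩ I).card + (E \ I).card := (Finset.card_inter_add_card_sdiff E I).symm
  rw [hE, hsplit, heven, hEsplit, add_mul]
  have h1 : (E ∩ I).card ≤ (E ∩ I).card * (L - 1) := Nat.le_mul_of_pos_right _ (by omega)
  omega

/-- If `Λ(G) ≤ 1` then every independent set has at most one vertex. -/
lemma card_le_one_of_max_le_one [Fintype V] (G : SimpleGraph V) (hG : G.Connected)
    (hΛ : maxLocalIndep G ≤ 1) (I : Finset V) (hI : G.IsIndepSet (I : Set V)) :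
    I.card ≤ 1 := by
  classical
  rw [Finset.card_le_one]
  intro a ha b hb
  by_contra hab
  have hnadj : ¬ G.Adj a b := hI ha hb hab
  have h2 : 1 < G.dist a b := hG.one_lt_dist_of_ne_of_not_adj hab hnadj
  obtain ⟨k, hk⟩ : ∃ k, G.dist a b = (k + 1) + 1 := ⟨G.dist a b - 2, by omega⟩
  obtain ⟨w, hw, hwk⟩ := exists_parent hG hk
  obtain ⟨w', hw', hwk'⟩ := exists_parent hG hwk
  have hne : w' ≠ b := by rintro rfl; omega
  have hnadj' : ¬ G.Adj w' b := by
    intro h
    have h3 := hG.dist_triangle (u := a) (v := w') (w := b)
    have h4 : G.dist w' b = 1 := SimpleGraph.dist_eq_one_iff_adj.2 h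
    omega
  have hind : G.IsIndepSet (({w', b} : Finset V) : Set V) := by
    intro x hx y hy hxy
    simp only [Finset.coe_insert, Finset.coe_singleton, Set.mem_insert_iff,
      Set.mem_singleton_iff] at hx hy
    rcases hx with rfl | rfl <;> rcases hy with rfl | rfl
    · exact absurd rfl hxy
    · exact hnadj'
    · exact fun h => hnadj' h.symm
    · exact absurd rfl hxy
  have := (card_le_localIndep G w _ hind (by
      intro x hx
      simp only [Finset.mem_insert, Finset.mem_singleton] at hx
      rcases hx with rfl | rfl
      · exact hw'.symm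
      · exact hw)).trans (localIndep_le_max G w)
  rw [Finset.card_pair hne] at this
  omega

/-- **Main theorem.** Every connected finite simple graph `G` on at least two vertices satisfies
`α(G) ≤ 1 + δ_even(G) (Λ(G) - 1)`. -/
theorem result {V : Type*} [Fintype V] (G : SimpleGraph V) (hG : G.Connected)
    (hV : 2 ≤ Fintype.card V) :
    (G.indepNum : ℤ) ≤ 1 + (minEvenCount G : ℤ) * ((maxLocalIndep G : ℤ) - 1) := by
  classical
  haveI : Nonempty V := hG.nonempty
  obtain ⟨I, hI⟩ := G.exists_isNIndepSet_indepNum
  -- `Λ ≥ 1`
  have hpos : 1 ≤ maxLocalIndep G := by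
    haveI : Nontrivial V := Fintype.one_lt_card_iff_nontrivial.1 (by omega)
    obtain ⟨v⟩ := ‹Nonempty V›
    obtain ⟨w, hw⟩ := hG.preconnected.exists_adj_of_nontrivial v
    have := (card_le_localIndep G v {w} (by simp [SimpleGraph.isIndepSet_iff])
      (by intro x hx; rw [Finset.mem_singleton.1 hx]; exact hw)).trans (localIndep_le_max G v)
    simpa using this
  rcases Nat.lt_or_ge 1 (maxLocalIndep G) with h2 | h1
  · obtain ⟨v, hv⟩ : ∃ v, evenCount G v = minEvenCount G := by
      have := Nat.sInf_mem (Set.range_nonempty (fun v => evenCount G v))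
      exact this
    have := bound_at G hG h2 v I hI.isIndepSet
    rw [hI.card_eq, hv] at this
    have h3 : ((maxLocalIndep G - 1 : ℕ) : ℤ) = (maxLocalIndep G : ℤ) - 1 := by
      rw [Nat.cast_sub hpos]; simp
    rw [← h3]
    exact_mod_cast this
  · have h := card_le_one_of_max_le_one G hG h1 I hI.isIndepSet
    rw [hI.card_eq] at h
    have h4 : maxLocalIndep G = 1 := le_antisymm h1 hpos
    rw [h4]
    simp only [Nat.cast_one, sub_self, mul_zero, add_zero]
    exact_mod_cast h

end Pool.Agent.Results.MP_c843e9_co.EvenDistBound
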